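import Pool.Agent.Lib.MP_6805b2_co.GE.Track

/-!
# Stahl's conjecture for `m = 2 n + 2` and `n <= 5`

For `1 <= n <= 5` and `q >= 1` there is no homomorphism from the Kneser graph of the `n`-subsets
of a `(2 n + 2)`-set to the Kneser graph of the `((q - 1) n + 1)`-subsets of a
`(q (2 n + 2) - 2 (n - 1) - 1)`-set. This is the case `m = 2 n + 2`, `n <= 5` of the conjecture, in
the form of the frozen statement. The new case is `n = 5`, `m = 12`.
-/

namespace Pool.Agent.Results.MP_6805b2_co.ExcessTwo

theorem result : ∀ n q : ℕ, 1 ≤ n → n ≤ 5 → 1 ≤ q →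
    IsEmpty
      (SimpleGraph.fromRel
          (fun s t : {s : Finset (Fin (2 * n + 2)) // s.card = n} => Disjoint s.1 t.1) →g
        SimpleGraph.fromRel
          (fun s t : {s : Finset (Fin (q * (2 * n + 2) - 2 * (n - 1) - 1)) //
            s.card = (q - 1) * n + 1} => Disjoint s.1 t.1)) :=
  fun n q hn hn5 hq => Pool.Agent.Lib.MP_6805b2_co.GE.no_hom n q hn hn5 hq

end Pool.Agent.Results.MP_6805b2_co.ExcessTwo
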