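import Pool.Agent.Lib.MP_6805b2_co.FR.Box
import Pool.Agent.Lib.MP_6805b2_co.FR.Hom

/-!
# Stahl's conjecture: for each `n`, counterexamples descend to an explicit finite set of `(m, q)`
-/

namespace Pool.Agent.Results.MP_6805b2_co.FiniteReduction

/-- `(n, m, q)` is a counterexample to Stahl's conjecture: `2 n ≤ m`, `1 ≤ q` and there is a
homomorphism from the Kneser graph of the `n`-subsets of an `m`-set to the Kneser graph of the
`((q - 1) n + 1)`-subsets of a `(q m - 2 (n - 1) - 1)`-set. -/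
def IsCounterexample (n m q : ℕ) : Prop :=
  2 * n ≤ m ∧ 1 ≤ q ∧ Nonempty
    (SimpleGraph.fromRel
        (fun s t : {s : Finset (Fin m) // s.card = n} => Disjoint s.1 t.1) →g
      SimpleGraph.fromRel
        (fun s t : {s : Finset (Fin (q * m - 2 * (n - 1) - 1)) // s.card = (q - 1) * n + 1} =>
          Disjoint s.1 t.1))

/-- A counterexample gives one with `m ≤ 2 n ^ 2 (n - 1)` and `q ≤ n ^ 2 m ^ 3 (m choose n) ^ 2`, and even
with `q ≤ 4 n ^ 2` if `m` is larger than `4 n ^ 2` and `n ^ 3 / 2`. -/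
theorem result : ∀ n m q : ℕ, 3 ≤ n → IsCounterexample n m q →
    ∃ m' q' : ℕ, m' ≤ m ∧ q' ≤ q ∧ 2 * n < m' ∧ m' ≤ 2 * n ^ 2 * (n - 1) ∧
      q' ≤ n ^ 2 * m' ^ 3 * m'.choose n ^ 2 ∧
      (m' ≤ 4 * n ^ 2 ∨ 2 * m' ≤ n ^ 3 ∨ q' ≤ 4 * n ^ 2) ∧ IsCounterexample n m' q' := by
  intro n m q hn ⟨hm, hq, ⟨φ⟩⟩
  obtain ⟨k, rfl⟩ : ∃ k, n = k + 2 := ⟨n - 2, by omega⟩
  have hc := Pool.Agent.Lib.MP_6805b2_co.FR.cex_of_hom (k + 2) m q (by omega) hm hq φ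
  obtain ⟨m', q', h1, h2, h3, h4, h5, h6, h7, h8⟩ :=
    Pool.Agent.Lib.MP_6805b2_co.FR.red2 k (by omega) (m + q) m q le_rfl hm hq hc
  exact ⟨m', q', h1, h2, h6, h3, h4, h5, h6.le, h7,
    Pool.Agent.Lib.MP_6805b2_co.FR.hom_of_cex (k + 2) m' q' (by omega) h8⟩

end Pool.Agent.Results.MP_6805b2_co.FiniteReduction
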