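import Pool.Agent.Lib.MP_6805b2_co.FL.Fin
import Pool.Agent.Lib.MP_6805b2_co.FR.Hom

/-!
# Stahl's conjecture: for each `n`, one pair `(m, q)` decides all large `m` and all `q`
-/

namespace Pool.Agent.Results.MP_6805b2_co.OnePairDecides

/-- `(n, m, q)` is a counterexample to Stahl's conjecture: `2 n ≤ m`, `1 ≤ q` and there is a
homomorphism from the Kneser graph of the `n`-subsets of an `m`-set to the Kneser graph of the
`((q - 1) n + 1)`-subsets of a `(q m - 2 (n - 1) - 1)`-set. -/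
def IsCounterexample (n m q : ℕ) : Prop :=
  2 * n ≤ m ∧ 1 ≤ q ∧ Nonempty
    (SimpleGraph.fromRel
        (fun s t : {s : Finset (Fin m) // s.card = n} => Disjoint s.1 t.1) →g
      SimpleGraph.fromRel
        (fun s t : {s : Finset (Fin (q * m - 2 * (n - 1) - 1)) // s.card = (q - 1) * n + 1} =>
          Disjoint s.1 t.1))

/-- Let `n ≥ 4`. A counterexample with `m ≥ n ^ 4` gives counterexamples for all
`m' ≥ n ^ 2 (n - 1)` and all `q' ≥ min q (n - 1)`. -/
theorem result : ∀ n m q m' q' : ℕ, 4 ≤ n → n ^ 4 ≤ m → n ^ 2 * (n - 1) ≤ m' →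
    min q (n - 1) ≤ q' → IsCounterexample n m q → IsCounterexample n m' q' := by
  intro n m q m' q' hn hm hm' hq' ⟨h2, hq, ⟨φ⟩⟩
  obtain ⟨k, rfl⟩ : ∃ k, n = k + 2 := ⟨n - 2, by omega⟩
  have hk : 2 ≤ k := by omega
  have hc := Pool.Agent.Lib.MP_6805b2_co.FR.cex_of_hom (k + 2) m q (by omega) h2 hq φ
  have h3 : 2 * (k + 2) ≤ (k + 2) ^ 2 * (k + 1) := by
    calc 2 * (k + 2) = (k + 2) * 2 := by ring
      _ ≤ (k + 2) * ((k + 2) * (k + 1)) := Nat.mul_le_mul_left _ (by nlinarith)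
      _ = _ := by ring
  have h4 : (k + 2) ^ 2 * (k + 2 - 1) = (k + 2) ^ 2 * (k + 1) := rfl
  refine ⟨by omega, by omega, ?_⟩
  exact Pool.Agent.Lib.MP_6805b2_co.FR.hom_of_cex (k + 2) m' q' (by omega)
    (Pool.Agent.Lib.MP_6805b2_co.FL.allm k hk m q m' q' hm hq hc hm' hq')

end Pool.Agent.Results.MP_6805b2_co.OnePairDecides
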