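import Pool.Agent.Lib.MP_6805b2_co.ST.Fin

/-!
# Stahl's conjecture for Kneser graphs of sets of size four

For all `m ≥ 8` and `q ≥ 1` there is no homomorphism from the Kneser graph of the 4-subsets of an
`m`-set to the Kneser graph of the `((q - 1) * 4 + 1)`-subsets of a `(q m - 7)`-set. This is the
case `n = 4` of the conjecture, in the form of the frozen statement.
-/

namespace Pool.Agent.Results.MP_6805b2_co.SetsOfSizeFour

theorem result : ∀ m q : ℕ, 2 * 4 ≤ m → 1 ≤ q →
    IsEmpty
      (SimpleGraph.fromRel
          (fun s t : {s : Finset (Fin m) // s.card = 4} => Disjoint s.1 t.1) →g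
        SimpleGraph.fromRel
          (fun s t : {s : Finset (Fin (q * m - 2 * (4 - 1) - 1)) // s.card = (q - 1) * 4 + 1} =>
            Disjoint s.1 t.1)) :=
  fun m q hm hq => Pool.Agent.Lib.MP_6805b2_co.ST.fin m q hm hq

end Pool.Agent.Results.MP_6805b2_co.SetsOfSizeFour
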